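import Mathlib

/-! MP_4e92f2: the topology `τ` on the collapsed extended line is not a minimal US topology. -/

namespace Pool.Agent.Results.MP_4e92f2_gt.NotMinimalUS

open Set Topology Filter

/-- the three points which are identified -/
def A : Set EReal := {⊥, 0, ⊤}

/-- the equivalence relation collapsing `A` -/
def S : Setoid EReal where
  r x y := x = y ∨ (x ∈ A ∧ y ∈ A)
  iseqv := ⟨fun x => Or.inl rfl,
    by
      rintro x y (rfl | ⟨h1, h2⟩)
      · exact Or.inl rfl
      · exact Or.inr ⟨h2, h1⟩,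
    by
      rintro x y z (rfl | ⟨h1, h2⟩) (rfl | ⟨h3, h4⟩)
      · exact Or.inl rfl
      · exact Or.inr ⟨h3, h4⟩
      · exact Or.inr ⟨h1, h2⟩
      · exact Or.inr ⟨h1, h4⟩⟩

/-- `X₀ = [-∞,∞] / A` -/
def X0 : Type := Quotient S

/-- the projection -/
def q : EReal → X0 := Quotient.mk S

theorem q_eq {x y : EReal} : q x = q y ↔ x = y ∨ (x ∈ A ∧ y ∈ A) := Quotient.eq (r := S)

theorem q_surj : Function.Surjective q := Quotient.mk_surjective

/-- the point `*` -/
noncomputable def star : X0 := q 0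

/-- The topology `τ`: `U` is open iff `q⁻¹(U)` is open, and dense whenever `* ∈ U`. -/
@[reducible] noncomputable def tau : TopologicalSpace X0 where
  IsOpen U := IsOpen (q ⁻¹' U) ∧ (star ∈ U → Dense (q ⁻¹' U))
  isOpen_univ := ⟨by simp, fun _ => by simp⟩
  isOpen_inter := by
    rintro U V ⟨h1, h2⟩ ⟨h3, h4⟩
    refine ⟨by rw [preimage_inter]; exact h1.inter h3, fun h => ?_⟩
    rw [preimage_inter]
    exact (h2 h.1).inter_of_isOpen_left (h4 h.2) h1
  isOpen_sUnion := by
    intro s hs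
    refine ⟨by rw [preimage_sUnion]; exact isOpen_biUnion fun U hU => (hs U hU).1, ?_⟩
    rintro ⟨U, hU, hst⟩
    exact ((hs U hU).2 hst).mono (preimage_mono (subset_sUnion_of_mem hU))

/-- A topology is US if every sequence has at most one limit. -/
def US (t : TopologicalSpace X0) : Prop :=
  ∀ (x : ℕ → X0) (a b : X0), Tendsto x atTop (@nhds X0 t a) → Tendsto x atTop (@nhds X0 t b) →
    a = b

/-- the coarser topology -/
@[reducible] def tau' : TopologicalSpace X0 where
  IsOpen U := IsOpen (q ⁻¹' U) ∧ (U.Nonempty → Dense (q ⁻¹' U))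
  isOpen_univ := ⟨by simp, fun _ => by simp⟩
  isOpen_inter := by
    rintro U V ⟨h1, h2⟩ ⟨h3, h4⟩
    refine ⟨by rw [preimage_inter]; exact h1.inter h3, fun h => ?_⟩
    rw [preimage_inter]
    exact (h2 h.left).inter_of_isOpen_left (h4 h.right) h1
  isOpen_sUnion := by
    intro s hs
    refine ⟨by rw [preimage_sUnion]; exact isOpen_biUnion fun U hU => (hs U hU).1, ?_⟩
    rintro ⟨x, U, hU, hst⟩
    exact ((hs U hU).2 ⟨x, hst⟩).mono (preimage_mono (subset_sUnion_of_mem hU))

theorem dense_compl_of_countable {C : Set EReal} (hC : C.Countable) : Dense Cᶜ := by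
  have : Cᶜ = ⋂ x ∈ C, {x}ᶜ := by
    ext y
    simp only [mem_compl_iff, mem_iInter, mem_singleton_iff]
    exact ⟨fun h i hi hyi => h (hyi ▸ hi), fun h hy => h y hy rfl⟩
  rw [this]
  exact dense_biInter_of_isOpen (fun x _ => isOpen_compl_singleton) hC
    (fun x _ => dense_compl_singleton x)

theorem A_fin : A.Finite := by
  unfold A; exact Set.toFinite _

theorem lift_limit (t : ℕ → EReal) (l : EReal) (c : X0) (ht : Tendsto t atTop (𝓝 l))
    (hc : Tendsto (fun n => q (t n)) atTop (@nhds X0 tau' c)) : c = q l := by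
  by_contra hne
  -- eventually `q (t n) ≠ c`
  have hfin : (q ⁻¹' {c}).Finite := by
    obtain ⟨s, rfl⟩ := q_surj c
    refine (A_fin.union (finite_singleton s)).subset ?_
    intro y hy
    rcases q_eq.1 hy with h | h
    · exact Or.inr h
    · exact Or.inl h.1
  have hev : ∀ᶠ n in atTop, t n ∉ q ⁻¹' {c} := by
    have : (q ⁻¹' {c})ᶜ ∈ 𝓝 l := hfin.isClosed.isOpen_compl.mem_nhds (fun h => hne h.symm)
    exact ht this
  obtain ⟨N, hN⟩ := eventually_atTop.1 hev
  let C : Set EReal := insert l (range fun n => t (n + N))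
  have hCc : IsCompact C := (ht.comp (tendsto_add_atTop_nat N)).isCompact_insert_range
  have hCcount : C.Countable := (countable_range _).insert _
  have hcC : c ∉ q '' C := by
    rintro ⟨y, (rfl | ⟨n, rfl⟩), hy⟩
    · exact hne hy.symm
    · exact hN (n + N) (by omega) hy
  have hpre : q ⁻¹' (q '' C) = C ∨ q ⁻¹' (q '' C) = C ∪ A := by
    by_cases hA : (C ∩ A).Nonempty
    · right
      obtain ⟨s, hs1, hs2⟩ := hA
      ext y
      constructor
      · rintro ⟨z, hz, hzy⟩
        rcases q_eq.1 hzy with h | h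
        · exact Or.inl (h ▸ hz)
        · exact Or.inr h.2
      · rintro (h | h)
        · exact ⟨y, h, rfl⟩
        · exact ⟨s, hs1, q_eq.2 (Or.inr ⟨hs2, h⟩)⟩
    · left
      ext y
      constructor
      · rintro ⟨z, hz, hzy⟩
        rcases q_eq.1 hzy with h | h
        · exact h ▸ hz
        · exact absurd ⟨z, hz, h.1⟩ hA
      · intro h
        exact ⟨y, h, rfl⟩
  have hclosed : IsClosed (q ⁻¹' (q '' C)) := by
    rcases hpre with h | h
    · rw [h]; exact hCc.isClosed
    · rw [h]; exact hCc.isClosed.union A_fin.isClosed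
  have hcount : (q ⁻¹' (q '' C)).Countable := by
    rcases hpre with h | h
    · rw [h]; exact hCcount
    · rw [h]; exact hCcount.union A_fin.countable
  have hopen : IsOpen[tau'] (q '' C)ᶜ :=
    ⟨by rw [preimage_compl]; exact hclosed.isOpen_compl,
      fun _ => by rw [preimage_compl]; exact dense_compl_of_countable hcount⟩
  have hev2 : ∀ᶠ n in atTop, q (t n) ∈ (q '' C)ᶜ :=
    hc (@IsOpen.mem_nhds X0 tau' c _ hopen hcC)
  obtain ⟨M, hM⟩ := eventually_atTop.1 hev2
  exact hM (M + N) (by omega) ⟨t (M + N), Or.inr ⟨M, rfl⟩, rfl⟩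

theorem us_tau' : US tau' := by
  intro x a b ha hb
  choose t ht using fun n => q_surj (x n)
  obtain ⟨l, -, φ, hφ, hl⟩ := isCompact_univ.tendsto_subseq (x := t) (fun n => mem_univ _)
  have e : ∀ n, q ((t ∘ φ) n) = (x ∘ φ) n := fun n => ht (φ n)
  have h1 := lift_limit (t ∘ φ) l a hl (by
    simp only [e]
    exact ha.comp hφ.tendsto_atTop)
  have h2 := lift_limit (t ∘ φ) l b hl (by
    simp only [e]
    exact hb.comp hφ.tendsto_atTop)
  rw [h1, h2]

theorem t1_tau' : @T1Space X0 tau' := by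
  refine @T1Space.mk X0 tau' fun x => ?_
  refine @IsClosed.mk X0 tau' _ ?_
  obtain ⟨s, rfl⟩ := q_surj x
  have hfin : (q ⁻¹' {q s}).Finite := by
    refine (A_fin.union (finite_singleton s)).subset ?_
    intro y hy
    rcases q_eq.1 hy with h | h
    · exact Or.inr h
    · exact Or.inl h.1
  exact ⟨by rw [preimage_compl]; exact hfin.isClosed.isOpen_compl,
    fun _ => by rw [preimage_compl]; exact dense_compl_of_countable hfin.countable⟩

/-- **Main theorem.** There is a `T₁` US topology on `X₀` strictly coarser than `τ`. -/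
theorem result : ∃ τ' : TopologicalSpace X0, (∀ U : Set X0, IsOpen[τ'] U → IsOpen[tau] U) ∧
    (∃ U : Set X0, IsOpen[tau] U ∧ ¬ IsOpen[τ'] U) ∧ @T1Space X0 τ' ∧ US τ' := by
  refine ⟨tau', fun U hU => ⟨hU.1, fun h => hU.2 ⟨_, h⟩⟩, ⟨q '' Ioo 1 2, ?_, ?_⟩, t1_tau', us_tau'⟩
  · have hpre : q ⁻¹' (q '' Ioo (1 : EReal) 2) = Ioo 1 2 := by
      ext y
      constructor
      · rintro ⟨z, hz, hzy⟩
        rcases q_eq.1 hzy with h | h
        · exact h ▸ hz
        · exfalso
          rcases h.1 with h | h | h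
          · rw [h] at hz; exact absurd hz.1 (by simp)
          · rw [h] at hz; exact absurd (lt_trans zero_lt_one hz.1) (lt_irrefl _)
          · rw [mem_singleton_iff] at h; rw [h] at hz; exact absurd hz.2 (by simp)
      · intro h
        exact ⟨y, h, rfl⟩
    refine ⟨by rw [hpre]; exact isOpen_Ioo, ?_⟩
    rintro ⟨z, hz, hzs⟩
    exfalso
    rcases q_eq.1 hzs with h | h
    · rw [h] at hz; exact absurd (lt_trans zero_lt_one hz.1) (lt_irrefl _)
    · have : (z : EReal) ∈ q ⁻¹' (q '' Ioo (1 : EReal) 2) := ⟨z, hz, rfl⟩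
      rcases h.1 with h | h | h
      · rw [h] at hz; exact absurd hz.1 (by simp)
      · rw [h] at hz; exact absurd (lt_trans zero_lt_one hz.1) (lt_irrefl _)
      · rw [mem_singleton_iff] at h; rw [h] at hz; exact absurd hz.2 (by simp)
  · rintro ⟨h1, h2⟩
    have hne : (Ioo (1 : EReal) 2).Nonempty := by
      refine ⟨((3 / 2 : ℝ) : EReal), ?_, ?_⟩
      · exact EReal.coe_lt_coe_iff.2 (by norm_num : (1 : ℝ) < 3 / 2)
      · exact EReal.coe_lt_coe_iff.2 (by norm_num : (3 / 2 : ℝ) < 2)
    have hd := h2 (hne.image q)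
    obtain ⟨y, hy1, z, hz, hzy⟩ := hd.inter_open_nonempty (Iio 0) isOpen_Iio ⟨((-1 : ℝ) : EReal), by
      exact EReal.coe_lt_coe_iff.2 (by norm_num : (-1 : ℝ) < 0)⟩
    have hy2 : y ∉ Ioo (1 : EReal) 2 := fun h => absurd (lt_trans (lt_trans hy1 zero_lt_one) h.1) (lt_irrefl _)
    rcases q_eq.1 hzy with h | h
    · exact hy2 (h ▸ hz)
    · rcases h.1 with h | h | h
      · rw [h] at hz; exact absurd hz.1 (by simp)
      · rw [h] at hz; exact absurd (lt_trans zero_lt_one hz.1) (lt_irrefl _)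
      · rw [mem_singleton_iff] at h; rw [h] at hz; exact absurd hz.2 (by simp)

end Pool.Agent.Results.MP_4e92f2_gt.NotMinimalUS
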